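import Pool.Agent.helper25.TW.Spec2
import Pool.Agent.helper96.DP.Basic

set_option autoImplicit false

namespace TP.TW

open DP MeasureTheory Finset

private lemma ARM_num (h j J t : ℕ) (hj : j < J) (ht : 2 ^ (h + 1) * 8 ^ J ≤ t) :
    3 * (2 ^ (h + 2) * 8 ^ j) + 3 * 2 ^ h ≤ t ∧ 3 * 2 ^ h ≤ 2 ^ (h + 2) * 8 ^ j := by
  have h1 : (8 : ℕ) ^ (j + 1) ≤ 8 ^ J := Nat.pow_le_pow_right (by norm_num) hj
  have h2 : 2 ^ (h + 1) * 8 ^ (j + 1) ≤ 2 ^ (h + 1) * 8 ^ J := Nat.mul_le_mul_left _ h1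
  have h3 : 2 ^ (h + 1) * 8 ^ (j + 1) = 16 * (2 ^ h * 8 ^ j) := by ring
  have h4 : 2 ^ (h + 2) * 8 ^ j = 4 * (2 ^ h * 8 ^ j) := by ring
  have h5 : 2 ^ h * 1 ≤ 2 ^ h * 8 ^ j := Nat.mul_le_mul_left _ (Nat.one_le_pow _ _ (by norm_num))
  rw [h4]
  rw [h3] at h2
  constructor <;> omega

theorem ARM : ARM_stmt := by
  intro c k S i h t J ht hT j hj
  obtain ⟨y, z, hy, hyz, hc⟩ := hT
  obtain ⟨h1, h2⟩ := ARM_num h j J t hj ht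
  have h3 : sd y z ≤ sd y i + sd i z := sd_triangle y i z
  have h4 : sd y i = sd i y := sd_comm y i
  have h5 : 3 * (2 ^ (h + 2) * 8 ^ j) ≤ sd i z := by omega
  obtain ⟨p, q, hp, hq, hpq, -, -⟩ := Con.cross (x := i) (m := 2 ^ (h + 2) * 8 ^ j)
    (n := 3 * (2 ^ (h + 2) * 8 ^ j)) hc (hy.trans h2) (by omega) h5
  refine ⟨p, q, hp, hq, hpq.mono ?_⟩
  rintro w ⟨⟨hw1, hw2⟩, hw3⟩
  exact ⟨⟨hw1, hw3⟩, hw2⟩

end TP.TW
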